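import Pool.Agent.H50.SCG3.EST3
import Pool.Agent.H67.SCG2.ST4B
import Pool.Agent.H72.SCG2.TRN
import Pool.Agent.H83.SCG2.GENT

/-!
# EQX: rank three for `q = 2`
-/

namespace Pool.Agent.H50.SCG3

open Pool.SCG Matrix
open Pool.Agent.H67.SCG2 (mem_cl_bc)

section two

variable {F : Type} [Field F] (e : ZMod 2 ≃+* F)

/-- a matrix over the field with two elements -/
def mp (M : M3 (ZMod 2)) : M3 F := M.map e

theorem mp_mul (M N : M3 (ZMod 2)) : mp e (M * N) = mp e M * mp e N :=
  Matrix.map_mul (f := (e : ZMod 2 →+* F))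

theorem mp_one : mp e 1 = 1 := Matrix.map_one _ (map_zero e) (map_one e)

theorem mp_tr (M : M3 (ZMod 2)) : (mp e M).transpose = mp e M.transpose := rfl

theorem mp_det (M : M3 (ZMod 2)) : (mp e M).det = e M.det :=
  (RingHom.map_det (e : ZMod 2 →+* F) M).symm

/-- the matrices of the generators -/
def mB : M3 (ZMod 2) := !![1, 1, 0; 1, 0, 0; 0, 0, 1]

def mB' : M3 (ZMod 2) := !![0, 1, 0; 1, 1, 0; 0, 0, 1]

def mC : M3 (ZMod 2) := !![0, 0, 1; 0, 1, 0; 1, 0, 0]

theorem mB_inv : mB * mB' = 1 := by decide

theorem mC_inv : mC * mC = 1 := by decide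

theorem mB_det : mB.det = 1 := by
  rw [Matrix.det_fin_three]; decide

theorem mC_det : mC.det = 1 := by
  rw [Matrix.det_fin_three]; decide

/-- the matrices of the products of two generators -/
def mBC : M3 (ZMod 2) := mB' * mC

def mCB : M3 (ZMod 2) := mC * mB

theorem mul_out {x y : Cor F} {M M' N : M3 (ZMod 2)} (hx : Is x true (mp e M))
    (hy : Is y true (mp e N)) (h : M * M' = 1) (hs : M'.transpose = M') :
    Is (x * y) false (mp e (M' * N)) := by
  have h1 := hx.mul_outer' hy (A' := mp e M') (by rw [← mp_mul, h, mp_one])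
  rw [mp_tr, hs, ← mp_mul] at h1
  exact h1

theorem is_pow {x : Cor F} {M : M3 (ZMod 2)} (hx : Is x false (mp e M)) (n : ℕ) :
    Is (x ^ n) false (mp e (M ^ n)) := by
  induction n with
  | zero => rw [pow_zero, pow_zero, mp_one]; exact is_one
  | succ n ih => rw [pow_succ, pow_succ, mp_mul]; exact ih.mul_inner hx

theorem is_one' {x : Cor F} (hx : Is x false (mp e 1)) : x = 1 := by
  rw [mp_one] at hx
  exact hx.ext is_one

/-- membership of an inner element -/
def InH (H : Subgroup (Cor F)) (M : M3 (ZMod 2)) : Prop := ∃ x ∈ H, Is x false (mp e M)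

theorem InH.mul {H : Subgroup (Cor F)} {M N : M3 (ZMod 2)} (hM : InH e H M) (hN : InH e H N) :
    InH e H (M * N) := by
  obtain ⟨x, hx, hx'⟩ := hM
  obtain ⟨y, hy, hy'⟩ := hN
  refine ⟨x * y, H.mul_mem hx hy, ?_⟩
  rw [mp_mul]
  exact hx'.mul_inner hy'

theorem InH.one {H : Subgroup (Cor F)} : InH e H 1 :=
  ⟨1, H.one_mem, by rw [mp_one]; exact is_one⟩

theorem InH.prod {H : Subgroup (Cor F)} (L : List (M3 (ZMod 2))) (h : ∀ A ∈ L, InH e H A) :
    InH e H L.prod := by
  induction L with
  | nil => exact InH.one e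
  | cons A L ih =>
    rw [List.prod_cons]
    exact (h A (by simp)).mul e (ih (fun B hB => h B (by simp [hB])))

end two

/-- the sign of a power -/
theorem zpow_s {F : Type} [Field F] {x : Cor F} (hx : x.s = false) (k : ℤ) :
    (x ^ k).s = false := by
  let K : Subgroup (Cor F) :=
    { carrier := {x | x.s = false}
      mul_mem' := by
        intro a b ha hb
        simp only [Set.mem_ofPred_eq] at ha hb ⊢
        rw [Cor.mul_s, ha, hb]
        rfl
      one_mem' := rfl
      inv_mem' := by
        intro a ha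
        exact ha }
  exact K.zpow_mem (x := x) hx k

theorem eqx_thm (hIOT : EIOTStmt) : EQXStmt := by
  classical
  intro F _ _ hcard
  have : Fintype F := Fintype.ofFinite F
  have hc : Fintype.card F = 2 := by rw [← Nat.card_eq_fintype_card]; exact hcard
  obtain ⟨e⟩ : Nonempty (ZMod 2 ≃+* F) := ⟨ZMod.ringEquivOfPrime F Nat.prime_two hc⟩
  have hcube : ∀ x : F, x ^ 3 = 1 → x = 1 := by
    intro x hx
    have h1 : ∀ s : ZMod 2, s ^ 3 = 1 → s = 1 := by decide
    have h2 := h1 (e.symm x) (by rw [← map_pow, hx, map_one])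
    rw [← e.apply_symm_apply x, h2, map_one]
  obtain ⟨hinj, hran, -⟩ := hIOT F hcube
  obtain ⟨a, ha⟩ := exists_is (F := F) true (mp e 1) (by rw [mp_one, Matrix.det_one])
  obtain ⟨b, hb⟩ := exists_is (F := F) true (mp e mB) (by rw [mp_det, mB_det, map_one])
  obtain ⟨c, hcc⟩ := exists_is (F := F) true (mp e mC) (by rw [mp_det, mC_det, map_one])
  have t1 : (1 : M3 (ZMod 2)).transpose = 1 := by decide
  have tB : mB'.transpose = mB' := by decide
  have tC : mC.transpose = mC := by decide
  have ab := mul_out e ha hb (M' := 1) (by decide) t1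
  have ba := mul_out e hb ha mB_inv tB
  have ac := mul_out e ha hcc (M' := 1) (by decide) t1
  have ca := mul_out e hcc ha mC_inv tC
  have bc := mul_out e hb hcc mB_inv tB
  have cb := mul_out e hcc hb mC_inv tC
  have aa := mul_out e ha ha (M' := 1) (by decide) t1
  have bb := mul_out e hb hb mB_inv tB
  have cc := mul_out e hcc hcc mC_inv tC
  have haa : a * a = 1 := is_one' e (by simpa using aa)
  have hbb : b * b = 1 := is_one' e (by
    have : mB' * mB = 1 := by decide
    rwa [this] at bb)
  have hc2 : c * c = 1 := is_one' e (by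
    have : mC * mC = 1 := by decide
    rwa [this] at cc)
  have hac : a * c = c * a := by
    refine ac.ext ?_
    have : mC * 1 = 1 * mC := by decide
    rw [← this]
    exact ca
  have ha1 : a ≠ 1 := fun h => by
    rw [h] at ha
    exact Bool.false_ne_true ha.1
  have hb1 : b ≠ 1 := fun h => by
    rw [h] at hb
    exact Bool.false_ne_true hb.1
  have hc1 : c ≠ 1 := fun h => by
    rw [h] at hcc
    exact Bool.false_ne_true hcc.1
  have minj : ∀ M N : M3 (ZMod 2), mp e M = mp e N → M = N := by
    intro M N h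
    ext i j
    have := congrFun (congrFun h i) j
    exact e.injective this
  have hab : a ≠ b := fun h => by
    have h1 := (ha.uniq (h ▸ hb)).2
    have h2 := minj _ _ h1
    revert h2
    decide
  have hbc : b ≠ c := fun h => by
    have h1 := (hb.uniq (h ▸ hcc)).2
    have h2 := minj _ _ h1
    revert h2
    decide
  have h3 : (b * a) ^ 3 = 1 := is_one' e (by
    have := is_pow e ba 3
    have h : (mB' * 1) ^ 3 = (1 : M3 (ZMod 2)) := by decide
    rwa [h] at this)
  have h7 : (b * c) ^ 7 = 1 := is_one' e (by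
    have := is_pow e bc 7
    have h : (mB' * mC) ^ 7 = (1 : M3 (ZMod 2)) := by decide
    rwa [h] at this)
  -- the intersection
  have key : ∀ k j : ℤ, (b * a) ^ k = (b * c) ^ j → (b * a) ^ k = 1 := by
    intro k j h
    have e1 : ((b * a) ^ k) ^ 3 = 1 := by
      rw [← zpow_natCast, ← _root_.zpow_mul, mul_comm, _root_.zpow_mul, zpow_natCast, h3, _root_.one_zpow]
    have e2 : ((b * a) ^ k) ^ 7 = 1 := by
      rw [h, ← zpow_natCast, ← _root_.zpow_mul, mul_comm, _root_.zpow_mul, zpow_natCast, h7, _root_.one_zpow]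
    have e3 : ((b * a) ^ k) ^ 7 = ((b * a) ^ k) ^ 3 * ((b * a) ^ k) ^ 3 * ((b * a) ^ k) := by
      rw [← pow_add, ← pow_succ]
    rw [e3, e1, one_mul, one_mul] at e2
    exact e2
  have hst : IsStringC 3 ![a, b, c] := by
    refine est3_thm (Cor F) a b c ha1 hb1 hc1 haa hbb hc2 hac hab hbc ?_
    intro x hx1 hx2
    have hx1' : x ∈ Subgroup.closure ({b, a} : Set (Cor F)) := by
      rw [Set.pair_comm]
      exact hx1
    obtain ⟨k, hk⟩ := mem_cl_bc hbb haa hx1'
    obtain ⟨j, hj⟩ := mem_cl_bc hbb hc2 hx2
    have sa : ((b * a) ^ k).s = false := zpow_s ba.1 k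
    have sc : ((b * c) ^ j).s = false := zpow_s bc.1 j
    rcases hk with hk | hk <;> rcases hj with hj | hj
    · rw [hk, key k j (hk.symm.trans hj)]
      exact Subgroup.one_mem _
    · exfalso
      have h1 : ((b * a) ^ k).s = (b * (b * c) ^ j).s := by rw [← hk, ← hj]
      rw [Cor.mul_s, sa, sc, hb.1] at h1
      exact Bool.false_ne_true h1
    · exfalso
      have h1 : (b * (b * a) ^ k).s = ((b * c) ^ j).s := by rw [← hk, ← hj]
      rw [Cor.mul_s, sa, sc, hb.1] at h1
      exact Bool.false_ne_true h1.symm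
    · have h1 : (b * a) ^ k = (b * c) ^ j := mul_left_cancel (hk.symm.trans hj)
      rw [hk, key k j h1, mul_one]
      exact Subgroup.subset_closure rfl
  -- generation
  obtain ⟨H, hH⟩ : ∃ H, H = Subgroup.closure (Set.range ![a, b, c]) := ⟨_, rfl⟩
  have mA : a ∈ H := by rw [hH]; exact Subgroup.subset_closure ⟨0, rfl⟩
  have mBm : b ∈ H := by rw [hH]; exact Subgroup.subset_closure ⟨1, rfl⟩
  have mCm : c ∈ H := by rw [hH]; exact Subgroup.subset_closure ⟨2, rfl⟩
  have iab : InH e H mB := ⟨a * b, H.mul_mem mA mBm, by simpa using ab⟩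
  have iba : InH e H mB' := ⟨b * a, H.mul_mem mBm mA, by simpa using ba⟩
  have iac : InH e H mC := ⟨a * c, H.mul_mem mA mCm, by simpa using ac⟩
  have ibc : InH e H mBC := ⟨b * c, H.mul_mem mBm mCm, bc⟩
  have icb : InH e H mCB := ⟨c * b, H.mul_mem mCm mBm, cb⟩
  have all : ∀ L : List (M3 (ZMod 2)),
      (∀ A ∈ L, A = mB ∨ A = mB' ∨ A = mC ∨ A = mBC ∨ A = mCB) → InH e H L.prod := by
    intro L hL
    refine InH.prod e L fun A hA => ?_
    rcases hL A hA with h | h | h | h | h <;> rw [h]
    · exact iab
    · exact iba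
    · exact iac
    · exact ibc
    · exact icb
  have T01 : InH e H (transvection 0 1 1) := by
    have h := all [mB, mC, mBC, mB', mCB, mC, mBC, mBC] (by simp)
    have h2 : [mB, mC, mBC, mB', mCB, mC, mBC, mBC].prod = transvection 0 1 1 := by decide
    rwa [h2] at h
  have T02 : InH e H (transvection 0 2 1) := by
    have h := all [mB', mCB, mCB, mC, mBC, mB', mCB] (by simp)
    have h2 : [mB', mCB, mCB, mC, mBC, mB', mCB].prod = transvection 0 2 1 := by decide
    rwa [h2] at h
  have T12 : InH e H (transvection 1 2 1) := by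
    have h := all [mB, mCB, mCB, mC, mBC, mBC, mB'] (by simp)
    have h2 : [mB, mCB, mCB, mC, mBC, mBC, mB'].prod = transvection 1 2 1 := by decide
    rwa [h2] at h
  have T10 : InH e H (transvection 1 0 1) := by
    have h := all [mBC, mBC, mB', mCB, mC, mBC, mBC] (by simp)
    have h2 : [mBC, mBC, mB', mCB, mC, mBC, mBC].prod = transvection 1 0 1 := by decide
    rwa [h2] at h
  have T21 : InH e H (transvection 2 1 1) := by
    have h := all [mBC, mBC, mB', mCB, mCB, mCB] (by simp)
    have h2 : [mBC, mBC, mB', mCB, mCB, mCB].prod = transvection 2 1 1 := by decide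
    rwa [h2] at h
  have T20 : InH e H (transvection 2 0 1) := by
    have h := all [mB, mC, mBC, mB', mCB, mCB, mC, mB'] (by simp)
    have h2 : [mB, mC, mBC, mB', mCB, mCB, mC, mB'].prod = transvection 2 0 1 := by decide
    rwa [h2] at h
  have T : ∀ (i j : Fin 3), i ≠ j → InH e H (transvection i j 1) := by
    intro i j hij
    fin_cases i <;> fin_cases j
    · exact absurd rfl hij
    · exact T01
    · exact T02
    · exact T10
    · exact absurd rfl hij
    · exact T12
    · exact T20
    · exact T21
    · exact absurd rfl hij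
  have hgen : ∀ (i j : Fin 3) (hij : i ≠ j) (t : F),
      inn (⟨transvection i j t, det_transvection_of_ne i j hij t⟩ : SL3 F) ∈ H := by
    intro i j hij t
    have h1 : ∀ s : ZMod 2, s = 0 ∨ s = 1 := by decide
    have h2 : t = e (e.symm t) := (e.apply_symm_apply t).symm
    have h3 : Is (inn (⟨transvection i j t, det_transvection_of_ne i j hij t⟩ : SL3 F)) false
      (transvection i j t) := ⟨rfl, rfl⟩
    rcases h1 (e.symm t) with h | h
    · rw [h, map_zero] at h2
      have h4 : inn (⟨transvection i j t, det_transvection_of_ne i j hij t⟩ : SL3 F) = 1 := by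
        refine h3.ext ?_
        rw [h2, transvection_zero]
        exact is_one
      rw [h4]
      exact H.one_mem
    · rw [h, map_one] at h2
      obtain ⟨x, hx, hx'⟩ := T i j hij
      have h4 : inn (⟨transvection i j t, det_transvection_of_ne i j hij t⟩ : SL3 F) = x := by
        refine h3.ext ?_
        rw [h2]
        have h5 : mp e (transvection i j 1) = transvection i j 1 := by
          unfold mp transvection
          rw [Matrix.map_add _ (map_add e), Matrix.map_one _ (map_zero e) (map_one e),
            Matrix.map_single, map_one]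
        rwa [h5] at hx'
      rw [h4]
      exact hx
  have hinnH : ∀ m : SL3 F, inn m ∈ H := by
    let ih : SL3 F →* Cor F :=
      { toFun := inn
        map_one' := rfl
        map_mul' := inn_mul }
    have h1 : H.comap ih = ⊤ := Pool.Agent.H83.SCG2.gent_thm F (H.comap ih) fun i j hij t =>
      hgen i j hij t
    intro m
    have h2 : m ∈ H.comap ih := by rw [h1]; exact Subgroup.mem_top m
    exact h2
  have htop : H = ⊤ := by
    rw [eq_top_iff]
    intro x _
    have inner : ∀ y : Cor F, y.s = false → y ∈ H := by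
      intro y hy
      have : y = inn y.m := Cor.ext rfl hy
      rw [this]
      exact hinnH y.m
    by_cases hs : x.s = false
    · exact inner x hs
    · have h1 : (a⁻¹ * x).s = false := by
        rw [Cor.mul_s, Cor.inv_s, ha.1]
        cases h : x.s
        · exact absurd h hs
        · rfl
      have h2 := H.mul_mem mA (inner _ h1)
      rwa [mul_inv_cancel_left] at h2
  have hfin : HasStringC (⊤ : Subgroup (Cor F)) 3 := ⟨![a, b, c], hst, by rw [← hH]; exact htop⟩
  have h1 := (trn_thm (Cor F) (MulAut (SL3 F)) (iota F) hinj ⊤ 3).2 hfin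
  rwa [← MonoidHom.range_eq_map, hran] at h1

end Pool.Agent.H50.SCG3
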