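import Pool.Agent.H24.SCG3.Stmts6
import Pool.Agent.H43.SCG.ST4

/-!
# EST3: the criterion for rank three
-/

namespace Pool.Agent.H50.SCG3

open Pool.SCG
open Pool.Agent.H43.SCG (mem_cl_one split)

theorem est3_thm : EST3Stmt := by
  intro G _ a b c ha1 hb1 hc1 ha hb hc hac hab hbc h1
  have m3 : ∀ {S T : Set G} {x : G}, S ⊆ T → x ∈ Subgroup.closure S → x ∈ Subgroup.closure T :=
    fun hST hx => Subgroup.closure_mono hST hx
  have naB : a ∉ Subgroup.closure ({b, c} : Set G) := by
    intro h
    have h4 := h1 a (Subgroup.subset_closure (by simp)) h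
    rcases mem_cl_one hb h4 with h | h
    · exact ha1 h
    · exact hab h
  have ncA : c ∉ Subgroup.closure ({a, b} : Set G) := by
    intro h
    have h4 := h1 c h (Subgroup.subset_closure (by simp))
    rcases mem_cl_one hb h4 with h | h
    · exact hc1 h
    · exact hbc h.symm
  have sp : ∀ x ∈ Subgroup.closure ({a, c} : Set G),
      x ∈ Subgroup.closure ({c} : Set G) ∨
        ∃ y ∈ Subgroup.closure ({c} : Set G), x = a * y ∧ a * y = y * a := by
    intro x hx
    exact split ha (by simp) (by
      intro t ht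
      rw [Set.mem_singleton_iff] at ht
      rw [ht]
      exact hac) hx
  have p01 : ∀ x, x ∈ Subgroup.closure ({b, c} : Set G) →
      x ∈ Subgroup.closure ({a, c} : Set G) → x ∈ Subgroup.closure ({c} : Set G) := by
    intro x h0 hx
    rcases sp x hx with h | ⟨y, hy, rfl, -⟩
    · exact h
    · exfalso
      apply naB
      have hy' : y ∈ Subgroup.closure ({b, c} : Set G) := m3 (by simp) hy
      have := Subgroup.mul_mem _ h0 (Subgroup.inv_mem _ hy')
      rwa [mul_inv_cancel_right] at this
  have p12 : ∀ x, x ∈ Subgroup.closure ({a, b} : Set G) →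
      x ∈ Subgroup.closure ({a, c} : Set G) → x ∈ Subgroup.closure ({a} : Set G) := by
    intro x hx hx2
    rcases sp x hx2 with h | ⟨y, hy, rfl, -⟩
    · rcases mem_cl_one hc h with h' | h'
      · rw [h']; exact Subgroup.one_mem _
      · exfalso
        rw [h'] at hx
        exact ncA hx
    · rcases mem_cl_one hc hy with h' | h'
      · rw [h', mul_one]; exact Subgroup.subset_closure (by simp)
      · exfalso
        have h5 := Subgroup.mul_mem _ (Subgroup.inv_mem _
          (Subgroup.subset_closure (by simp : a ∈ ({a, b} : Set G)))) hx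
        rw [inv_mul_cancel_left, h'] at h5
        exact ncA h5
  -- the generators
  set ρ : Fin 3 → G := ![a, b, c] with hρ
  have r0 : ρ 0 = a := rfl
  have r1 : ρ 1 = b := rfl
  have r2 : ρ 2 = c := rfl
  have M0 : ∀ x ∈ Subgroup.closure (ρ '' {0}ᶜ), x ∈ Subgroup.closure ({b, c} : Set G) := by
    intro x hx
    refine m3 ?_ hx
    rintro y ⟨i, hi, rfl⟩
    fin_cases i
    · exact absurd rfl hi
    · simp [r1]
    · simp [r2]
  have M1 : ∀ x ∈ Subgroup.closure (ρ '' {1}ᶜ), x ∈ Subgroup.closure ({a, c} : Set G) := by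
    intro x hx
    refine m3 ?_ hx
    rintro y ⟨i, hi, rfl⟩
    fin_cases i
    · simp [r0]
    · exact absurd rfl hi
    · simp [r2]
  have M2 : ∀ x ∈ Subgroup.closure (ρ '' {2}ᶜ), x ∈ Subgroup.closure ({a, b} : Set G) := by
    intro x hx
    refine m3 ?_ hx
    rintro y ⟨i, hi, rfl⟩
    fin_cases i
    · simp [r0]
    · simp [r1]
    · exact absurd rfl hi
  have main : ∀ (I : Set (Fin 3)) (x : G), x ∈ Subgroup.closure (Set.range ρ) →
      (∀ k, k ∉ I → x ∈ Subgroup.closure (ρ '' {k}ᶜ)) → x ∈ Subgroup.closure (ρ '' I) := by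
    intro I x hx hk
    have i0 : 0 ∈ I → a ∈ ρ '' I := fun h => ⟨0, h, rfl⟩
    have i1 : 1 ∈ I → b ∈ ρ '' I := fun h => ⟨1, h, rfl⟩
    have i2 : 2 ∈ I → c ∈ ρ '' I := fun h => ⟨2, h, rfl⟩
    have K0 : 0 ∉ I → x ∈ Subgroup.closure ({b, c} : Set G) := fun h => M0 x (hk 0 h)
    have K1 : 1 ∉ I → x ∈ Subgroup.closure ({a, c} : Set G) := fun h => M1 x (hk 1 h)
    have K2 : 2 ∉ I → x ∈ Subgroup.closure ({a, b} : Set G) := fun h => M2 x (hk 2 h)
    by_cases c0 : (0 : Fin 3) ∈ I <;> by_cases c1 : (1 : Fin 3) ∈ I <;>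
      by_cases c2 : (2 : Fin 3) ∈ I
    · refine m3 ?_ hx
      rintro y ⟨i, rfl⟩
      fin_cases i
      · exact i0 c0
      · exact i1 c1
      · exact i2 c2
    · refine m3 ?_ (K2 c2)
      simp only [Set.insert_subset_iff, Set.singleton_subset_iff]
      exact ⟨i0 c0, i1 c1⟩
    · refine m3 ?_ (K1 c1)
      simp only [Set.insert_subset_iff, Set.singleton_subset_iff]
      exact ⟨i0 c0, i2 c2⟩
    · refine m3 ?_ (p12 x (K2 c2) (K1 c1))
      simp only [Set.singleton_subset_iff]
      exact i0 c0
    · refine m3 ?_ (K0 c0)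
      simp only [Set.insert_subset_iff, Set.singleton_subset_iff]
      exact ⟨i1 c1, i2 c2⟩
    · refine m3 ?_ (h1 x (K2 c2) (K0 c0))
      simp only [Set.singleton_subset_iff]
      exact i1 c1
    · refine m3 ?_ (p01 x (K0 c0) (K1 c1))
      simp only [Set.singleton_subset_iff]
      exact i2 c2
    · have e1 := mem_cl_one ha (p12 x (K2 c2) (K1 c1))
      have e2 := mem_cl_one hb (h1 x (K2 c2) (K0 c0))
      have e3 : x = 1 := by
        rcases e1 with h | h
        · exact h
        · rcases e2 with h' | h'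
          · exact h'
          · exact absurd (h.symm.trans h') hab
      rw [e3]
      exact Subgroup.one_mem _
  refine ⟨?_, ?_, ?_⟩
  · intro i
    have key : ∀ y : G, y ≠ 1 → y * y = 1 → orderOf y = 2 := by
      intro y hy hyy
      exact orderOf_eq_prime (by rw [pow_two]; exact hyy) hy
    fin_cases i
    · exact key a ha1 ha
    · exact key b hb1 hb
    · exact key c hc1 hc
  · intro i j hij
    fin_cases i <;> fin_cases j <;> simp at hij
    exact hac
  · intro I J
    apply le_antisymm
    · rintro x ⟨hI, hJ⟩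
      apply main
      · exact m3 (Set.image_subset_range _ _) hI
      · intro k hk
        by_cases hkI : k ∈ I
        · have hkJ : k ∉ J := fun h => hk ⟨hkI, h⟩
          refine m3 (Set.image_mono ?_) hJ
          intro y hy h
          rw [Set.mem_singleton_iff] at h
          exact hkJ (h ▸ hy)
        · refine m3 (Set.image_mono ?_) hI
          intro y hy h
          rw [Set.mem_singleton_iff] at h
          exact hkI (h ▸ hy)
    · apply le_inf
      · exact Subgroup.closure_mono (Set.image_mono Set.inter_subset_left)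
      · exact Subgroup.closure_mono (Set.image_mono Set.inter_subset_right)

end Pool.Agent.H50.SCG3
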